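import Pool.Agent.Helper9.MTK.Sheet

/-!
Project T3K (MP_2a8cc2_nt), row GEO: a curve `y ^ 2 = F x` with constant coefficients and
`deg F ≥ 5` has no nonconstant rational parametrisation.
-/

set_option autoImplicit false

namespace Pool.Agent.Helper73.MTK

open Finset Polynomial

variable {M : Type} [Field M]

/-- the homogenisation of `G` of degree `N`, evaluated at `(p, q)` -/
noncomputable def hom {A : Type} [CommRing A] [Algebra M A] (N : ℕ) (G : M[X]) (p q : A) : A :=
  ∑ i ∈ range (N + 1), algebraMap M A (G.coeff i) * p ^ i * q ^ (N - i)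

theorem hom_field {L : Type} [Field L] [Algebra M L] (N : ℕ) (G : M[X]) (p q : L) (hq : q ≠ 0)
    (hG : G.natDegree ≤ N) : hom N G p q = q ^ N * aeval (p / q) G := by
  rw [aeval_eq_sum_range' (n := N + 1) (by omega), mul_sum, hom]
  refine sum_congr rfl fun i hi => ?_
  have hi' : i ≤ N := by simpa [Nat.lt_succ_iff] using hi
  have h : q ^ N = q ^ (N - i) * q ^ i := by rw [← pow_add, Nat.sub_add_cancel hi']
  rw [h, Algebra.smul_def, div_pow]
  field_simp

theorem hom_map {A B : Type} [CommRing A] [Algebra M A] [CommRing B] [Algebra M B]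
    (f : A →ₐ[M] B) (N : ℕ) (G : M[X]) (p q : A) :
    f (hom N G p q) = hom N G (f p) (f q) := by
  simp [hom, map_sum, map_mul, map_pow, AlgHom.commutes]

theorem bez (F : M[X]) (hF : F.Separable) (d : ℕ) (hd : F.natDegree ≤ d) (hd1 : 1 ≤ d)
    (p q : M[X]) (hq : q ≠ 0) :
    ∃ (U V : M[X]) (N : ℕ),
      hom d F p q * U + hom (d - 1) (derivative F) p q * V = q ^ N := by
  obtain ⟨u, v, huv⟩ := hF
  set a := u.natDegree + v.natDegree with ha
  refine ⟨hom a u p q, hom (a + 1) v p q, d + a, ?_⟩
  set f : M[X] →ₐ[M] RatFunc M := IsScalarTower.toAlgHom M M[X] (RatFunc M) with hf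
  have hinj : Function.Injective f := RatFunc.algebraMap_injective M
  apply hinj
  have hq' : f q ≠ 0 := fun h => hq (hinj (by rw [h, map_zero]))
  have hder : (derivative F).natDegree ≤ d - 1 := (natDegree_derivative_le F).trans (by omega)
  rw [map_add, map_mul, map_mul, map_pow, hom_map, hom_map, hom_map, hom_map,
    hom_field _ _ _ _ hq' hd, hom_field _ _ _ _ hq' (by omega : u.natDegree ≤ a),
    hom_field _ _ _ _ hq' hder, hom_field _ _ _ _ hq' (by omega : v.natDegree ≤ a + 1)]
  have h1 : aeval (f p / f q) F * aeval (f p / f q) u +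
      aeval (f p / f q) (derivative F) * aeval (f p / f q) v = 1 := by
    have := congrArg (aeval (f p / f q)) huv
    simp only [map_add, map_mul, map_one] at this
    linear_combination this
  obtain ⟨e, rfl⟩ : ∃ e, d = e + 1 := ⟨d - 1, by omega⟩
  simp only [Nat.add_sub_cancel]
  linear_combination (f q) ^ (e + 1 + a) * h1

theorem der_id (F : M[X]) (e : ℕ) (p q : M[X]) :
    hom e (derivative F) p q * (q * derivative p - p * derivative q) =
      q * derivative (hom (e + 1) F p q) - ((e + 1 : ℕ) : M[X]) * hom (e + 1) F p q *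
        derivative q := by
  have key : ∀ i ∈ range (e + 1 + 1),
      q * derivative (algebraMap M M[X] (F.coeff i) * p ^ i * q ^ (e + 1 - i)) -
        ((e + 1 : ℕ) : M[X]) * (algebraMap M M[X] (F.coeff i) * p ^ i * q ^ (e + 1 - i)) *
          derivative q =
      algebraMap M M[X] (F.coeff i) * ((i : ℕ) : M[X]) * p ^ (i - 1) * q ^ (e + 1 - i) *
        (q * derivative p - p * derivative q) := by
    intro i hi
    have hi' : i ≤ e + 1 := by simpa [Nat.lt_succ_iff] using hi
    obtain ⟨k, hk⟩ : ∃ k, e + 1 = i + k := ⟨e + 1 - i, by omega⟩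
    rw [hk, Nat.add_sub_cancel_left]
    have hC : derivative (algebraMap M M[X] (F.coeff i)) = 0 := by
      rw [Polynomial.algebraMap_apply]; simp
    rw [derivative_mul, derivative_mul, hC, derivative_pow, derivative_pow]
    simp only [zero_mul, zero_add]
    rcases i with _ | i
    · rcases k with _ | k
      · simp
      · simp only [Nat.cast_zero, Nat.add_sub_cancel, map_natCast, zero_add, map_zero, zero_mul,
          mul_zero]
        ring
    · rcases k with _ | k
      · simp only [Nat.add_sub_cancel, map_natCast, pow_zero, Nat.cast_zero, add_zero,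
          map_zero, zero_mul, mul_zero]
        ring
      · simp only [Nat.add_sub_cancel, map_natCast]
        push_cast
        ring
  have h2 : q * derivative (hom (e + 1) F p q) - ((e + 1 : ℕ) : M[X]) * hom (e + 1) F p q *
        derivative q = ∑ i ∈ range (e + 1 + 1),
        (algebraMap M M[X] (F.coeff i) * ((i : ℕ) : M[X]) * p ^ (i - 1) * q ^ (e + 1 - i) *
          (q * derivative p - p * derivative q)) := by
    rw [← sum_congr rfl key, sum_sub_distrib, hom, derivative_sum, mul_sum, mul_sum, sum_mul]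
  rw [h2, sum_range_succ', hom, sum_mul]
  simp only [Nat.cast_zero, mul_zero, zero_mul, add_zero]
  refine sum_congr rfl fun i hi => ?_
  have hi' : i ≤ e := by simpa [Nat.lt_succ_iff] using hi
  rw [coeff_derivative, map_mul, Nat.add_sub_cancel, Nat.add_sub_add_right]
  have : algebraMap M M[X] ((i : M) + 1) = ((i + 1 : ℕ) : M[X]) := by
    simp
  rw [this]

theorem coeff_hom (N : ℕ) (G : M[X]) (p q : M[X]) (D : ℕ) (hp : p.natDegree ≤ D)
    (hq : q.natDegree ≤ D) :
    (hom N G p q).natDegree ≤ N * D ∧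
      (hom N G p q).coeff (N * D) = hom N G (p.coeff D) (q.coeff D) := by
  have hterm : ∀ i ∈ range (N + 1), N * D = i * D + (N - i) * D := by
    intro i hi
    have hi' : i ≤ N := by simpa [Nat.lt_succ_iff] using hi
    rw [← add_mul]; congr 1; omega
  have h1 : ∀ i : ℕ, (algebraMap M M[X] (G.coeff i) * p ^ i).natDegree ≤ i * D := by
    intro i
    refine natDegree_mul_le.trans ?_
    rw [Polynomial.algebraMap_apply]
    simp only [Algebra.algebraMap_self, RingHom.id_apply, natDegree_C, zero_add]
    exact natDegree_pow_le.trans (Nat.mul_le_mul_left _ hp)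
  have h2 : ∀ i : ℕ, (q ^ i).natDegree ≤ i * D := fun i =>
    natDegree_pow_le.trans (Nat.mul_le_mul_left _ hq)
  constructor
  · refine natDegree_sum_le_of_forall_le _ _ fun i hi => ?_
    rw [hterm i hi]
    exact natDegree_mul_le.trans (add_le_add (h1 i) (h2 _))
  · rw [hom, finsetSum_coeff, hom]
    refine sum_congr rfl fun i hi => ?_
    rw [hterm i hi, coeff_mul_add_eq_of_natDegree_le (h1 i) (h2 _), Polynomial.algebraMap_apply]
    simp only [Algebra.algebraMap_self, RingHom.id_apply]
    rw [coeff_C_mul, coeff_pow_of_natDegree_le hp, coeff_pow_of_natDegree_le hq]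

theorem hom_zero_right (N : ℕ) (G : M[X]) (a : M) : hom N G a 0 = G.coeff N * a ^ N := by
  rw [hom, sum_eq_single N]
  · simp
  · intro i hi hiN
    have hi' : i ≤ N := by simpa [Nat.lt_succ_iff] using hi
    rw [zero_pow (by omega), mul_zero]
  · intro h
    simp at h

theorem hom_mul_left (N : ℕ) (G g p q : M[X]) : hom N G (g * p) (g * q) = g ^ N * hom N G p q := by
  rw [hom, hom, mul_sum]
  refine sum_congr rfl fun i hi => ?_
  have hi' : i ≤ N := by simpa [Nat.lt_succ_iff] using hi
  have h : g ^ N = g ^ i * g ^ (N - i) := by rw [← pow_add]; congr 1; omega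
  rw [h, mul_pow, mul_pow]
  ring

theorem geo_coprime [CharZero M] (d : ℕ) (F p q n m : M[X]) (hd : 5 ≤ d)
    (hFd : F.natDegree = d) (hF : F.Separable) (hq : q ≠ 0) (hpq : IsCoprime p q)
    (hnm : IsCoprime n m) (h : n ^ 2 * q ^ d = m ^ 2 * hom d F p q) :
    ∃ c : M, p = C c * q := by
  have hF0 : F ≠ 0 := by rintro rfl; simp at hFd; omega
  have hlead : F.coeff d ≠ 0 := by rw [← hFd]; exact leadingCoeff_ne_zero.2 hF0
  set Ψ := hom d F p q with hΨ
  -- `Ψ` is coprime to `q`
  have hcop : IsCoprime Ψ q := by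
    have h1 : ∃ R : M[X], Ψ = C (F.coeff d) * p ^ d + q * R := by
      refine ⟨∑ i ∈ range d, algebraMap M M[X] (F.coeff i) * p ^ i * q ^ (d - i - 1), ?_⟩
      rw [hΨ, hom, sum_range_succ, Nat.sub_self, pow_zero, mul_one, add_comm, mul_sum]
      congr 1
      refine sum_congr rfl fun i hi => ?_
      have hi' : i < d := by simpa using hi
      obtain ⟨k, hk⟩ : ∃ k, d - i = k + 1 := ⟨d - i - 1, by omega⟩
      rw [hk, Nat.add_sub_cancel]
      ring
    obtain ⟨R, hR⟩ := h1
    rw [hR]
    refine IsCoprime.add_mul_left_left ?_ R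
    exact (isCoprime_mul_unit_left_left (isUnit_C.2 (isUnit_iff_ne_zero.2 hlead)) _ _).2
      hpq.pow_left
  -- degrees
  set D := max p.natDegree q.natDegree with hD
  have hpD : p.natDegree ≤ D := le_max_left _ _
  have hqD : q.natDegree ≤ D := le_max_right _ _
  rcases Nat.eq_zero_or_pos D with hD0 | hDpos
  · have hp0 : p.natDegree = 0 := by omega
    have hq0 : q.natDegree = 0 := by omega
    rw [natDegree_eq_zero] at hp0 hq0
    obtain ⟨a, ha⟩ := hp0
    obtain ⟨b, hb⟩ := hq0
    have hb0 : b ≠ 0 := by rintro rfl; apply hq; rw [← hb, C_0]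
    refine ⟨a / b, ?_⟩
    rw [← ha, ← hb, ← C_mul, div_mul_cancel₀ _ hb0]
  exfalso
  obtain ⟨hdegΨ, hcoefΨ⟩ := coeff_hom d F p q D hpD hqD
  obtain ⟨hdegX, hcoefX⟩ := coeff_hom (d - 1) (derivative F) p q D hpD hqD
  set a := p.coeff D with ha
  set b := q.coeff D with hb
  have hab : b = 0 → a ≠ 0 := by
    intro hb0 ha0
    have h1 : p.natDegree < D := by
      refine lt_of_le_of_ne hpD fun he => ?_
      have : p = 0 := by
        rw [← leadingCoeff_eq_zero, leadingCoeff, he]; exact ha0
      rw [this] at he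
      simp at he; omega
    have h2 : q.natDegree < D := by
      refine lt_of_le_of_ne hqD fun he => ?_
      exact hq (by rw [← leadingCoeff_eq_zero, leadingCoeff, he]; exact hb0)
    omega
  have hb0hom : b = 0 → hom d F a b ≠ 0 := by
    intro hb0
    rw [hb0, hom_zero_right]
    exact mul_ne_zero hlead (pow_ne_zero _ (hab hb0))
  have hΨ0 : Ψ ≠ 0 := by
    intro h0
    rw [h0, isCoprime_zero_left] at hcop
    have hq0 : q.natDegree = 0 := natDegree_eq_zero_of_isUnit hcop
    have hb0 : b = 0 := coeff_eq_zero_of_natDegree_lt (by omega)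
    apply hb0hom hb0
    rw [← hcoefΨ, ← hΨ, h0, coeff_zero]
  -- `Ψ ∣ n ^ 2` and `n ^ 2 ∣ Ψ`
  have hd1 : Ψ ∣ n ^ 2 := by
    have : Ψ ∣ n ^ 2 * q ^ d := ⟨m ^ 2, by rw [h]; ring⟩
    exact (hcop.pow_right).dvd_of_dvd_mul_right this
  have hd2 : n ^ 2 ∣ Ψ := by
    have : n ^ 2 ∣ m ^ 2 * Ψ := ⟨q ^ d, by rw [h]⟩
    exact (hnm.pow).dvd_of_dvd_mul_left this
  have hn0 : n ≠ 0 := by
    rintro rfl
    rw [zero_pow two_ne_zero, zero_dvd_iff] at hd2
    exact hΨ0 hd2
  obtain ⟨E, hE⟩ := hd2
  have hnΨ : n ∣ Ψ := ⟨n * E, by rw [hE]; ring⟩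
  have hnΨ' : n ∣ derivative Ψ := by
    rw [hE, derivative_mul, derivative_pow]
    refine dvd_add (Dvd.dvd.mul_right ?_ _) (Dvd.dvd.mul_right ⟨n, by ring⟩ _)
    simp only [Nat.add_one_sub_one, pow_one]
    exact ⟨C ((2 : ℕ) : M) * derivative n, by ring⟩
  -- the Wronskian
  set W := q * derivative p - p * derivative q with hW
  obtain ⟨e, hde⟩ : ∃ e, d = e + 1 := ⟨d - 1, by omega⟩
  have hid := der_id F e p q
  rw [← hde, ← hΨ, ← hW] at hid
  have hW0 : W ≠ 0 := by
    intro h0
    have h1 : q * derivative p = p * derivative q := sub_eq_zero.1 h0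
    have h2 : q ∣ derivative q :=
      hpq.symm.dvd_of_dvd_mul_left ⟨derivative p, h1.symm⟩
    have h3 : p ∣ derivative p :=
      hpq.dvd_of_dvd_mul_left ⟨derivative q, h1⟩
    have h4 : derivative q = 0 := by
      by_contra hne
      have := natDegree_le_of_dvd h2 hne
      have h5 : q.natDegree ≠ 0 := by
        intro h6
        rw [natDegree_eq_zero] at h6
        obtain ⟨x, hx⟩ := h6
        apply hne
        rw [← hx, derivative_C]
      have := natDegree_derivative_lt h5
      omega
    have h5 : derivative p = 0 := by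
      by_contra hne
      have := natDegree_le_of_dvd h3 hne
      have h5 : p.natDegree ≠ 0 := by
        intro h6
        rw [natDegree_eq_zero] at h6
        obtain ⟨x, hx⟩ := h6
        apply hne
        rw [← hx, derivative_C]
      have := natDegree_derivative_lt h5
      omega
    have h6 := derivative_eq_zero.1 h4
    have h7 := derivative_eq_zero.1 h5
    omega
  have hnW : n ∣ W := by
    have h1 : n ∣ hom e (derivative F) p q * W := by
      rw [hid]
      exact dvd_sub (Dvd.dvd.mul_left hnΨ' _)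
        (Dvd.dvd.mul_right (Dvd.dvd.mul_left hnΨ _) _)
    obtain ⟨U, V, N, hUV⟩ := bez F hF d hFd.le (by omega) p q hq
    have h2 : IsCoprime n q := IsCoprime.of_isCoprime_of_dvd_left hcop hnΨ
    have h3 : IsCoprime n (hom (d - 1) (derivative F) p q * V) := by
      have h4 : IsCoprime n (q ^ N) := h2.pow_right
      rw [← hUV] at h4
      obtain ⟨k, hk⟩ := hnΨ
      rw [← hΨ, hk] at h4
      have h5 : n * k * U + hom (d - 1) (derivative F) p q * V =
        hom (d - 1) (derivative F) p q * V + n * (k * U) := by ring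
      rw [h5] at h4
      exact IsCoprime.of_add_mul_left_right h4
    have h4 : IsCoprime n (hom e (derivative F) p q) := by
      have := h3.of_mul_right_left
      rwa [hde, Nat.add_sub_cancel] at this
    exact h4.dvd_of_dvd_mul_left h1
  have hdn : n.natDegree ≤ W.natDegree := natDegree_le_of_dvd hnW hW0
  have hdΨ : Ψ.natDegree ≤ 2 * n.natDegree := by
    have := natDegree_le_of_dvd hd1 (pow_ne_zero _ hn0)
    rwa [natDegree_pow] at this
  have hdW : W.natDegree ≤ 2 * D - 2 := by
    have hp' : (derivative p).natDegree ≤ D - 1 := (natDegree_derivative_le p).trans (by omega)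
    have hq' : (derivative q).natDegree ≤ D - 1 := (natDegree_derivative_le q).trans (by omega)
    rw [natDegree_le_iff_coeff_eq_zero]
    intro N hN
    rcases Nat.lt_or_ge (D + (D - 1)) N with hN1 | hN1
    · apply coeff_eq_zero_of_natDegree_lt
      refine lt_of_le_of_lt ?_ hN1
      refine (natDegree_sub_le _ _).trans (max_le ?_ ?_)
      · exact natDegree_mul_le.trans (add_le_add hqD hp')
      · exact natDegree_mul_le.trans (add_le_add hpD hq')
    · have hN2 : N = D + (D - 1) := by omega
      rw [hN2, hW, coeff_sub, coeff_mul_add_eq_of_natDegree_le hqD hp',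
        coeff_mul_add_eq_of_natDegree_le hpD hq', coeff_derivative, coeff_derivative,
        Nat.sub_add_cancel hDpos]
      ring
  rcases ne_or_eq (hom d F a b) 0 with hne | heq
  · have h1 : d * D ≤ Ψ.natDegree := le_natDegree_of_ne_zero (by rw [hcoefΨ]; exact hne)
    have h2 : 5 * D ≤ d * D := Nat.mul_le_mul_right _ hd
    omega
  · have hb0 : b ≠ 0 := fun hb0 => hb0hom hb0 heq
    rw [hom_field d F a b hb0 hFd.le] at heq
    have hroot : aeval (a / b) F = 0 := (mul_eq_zero.1 heq).resolve_left (pow_ne_zero _ hb0)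
    have hroot' : aeval (a / b) (derivative F) ≠ 0 := by
      intro h0
      obtain ⟨u, v, huv⟩ := hF
      have := congrArg (aeval (a / b)) huv
      simp only [map_add, map_mul, map_one, hroot, h0, mul_zero, add_zero] at this
      exact zero_ne_one this
    have hX : hom (d - 1) (derivative F) a b ≠ 0 := by
      rw [hom_field (d - 1) (derivative F) a b hb0
        ((natDegree_derivative_le F).trans (by omega))]
      exact mul_ne_zero (pow_ne_zero _ hb0) hroot'
    have h1 : (d - 1) * D ≤ (hom (d - 1) (derivative F) p q).natDegree :=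
      le_natDegree_of_ne_zero (by rw [hcoefX]; exact hX)
    have hX0 : hom (d - 1) (derivative F) p q ≠ 0 := by
      intro h0
      rw [h0, coeff_zero] at hcoefX
      exact hX hcoefX.symm
    have h2 : (hom (d - 1) (derivative F) p q).natDegree + W.natDegree ≤ Ψ.natDegree + D := by
      rw [← natDegree_mul hX0 hW0]
      have hde' : d - 1 = e := by omega
      rw [hde', hid]
      refine (natDegree_sub_le _ _).trans (max_le ?_ ?_)
      · refine natDegree_mul_le.trans ?_
        have := natDegree_derivative_le Ψ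
        omega
      · refine natDegree_mul_le.trans ?_
        have h3 := natDegree_derivative_le q
        have h4 : (((d : ℕ) : M[X]) * Ψ).natDegree ≤ Ψ.natDegree := by
          refine natDegree_mul_le.trans ?_
          rw [natDegree_natCast]; omega
        omega
    have h3 : 4 * D ≤ (d - 1) * D := Nat.mul_le_mul_right _ (by omega)
    omega

theorem st_GEO : Pool.Agent.Helper9.MTK.ST_GEO := by
  intro M _ _ d F p q n m hd hFd hF hq hm h
  have h' : n ^ 2 * q ^ d = m ^ 2 * hom d F p q := h
  classical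
  set g := EuclideanDomain.gcd p q with hg
  have hg0 : g ≠ 0 := fun h0 => hq (EuclideanDomain.gcd_eq_zero_iff.1 h0).2
  obtain ⟨p₁, hp₁⟩ : g ∣ p := EuclideanDomain.gcd_dvd_left p q
  obtain ⟨q₁, hq₁⟩ : g ∣ q := EuclideanDomain.gcd_dvd_right p q
  have hq10 : q₁ ≠ 0 := by rintro rfl; apply hq; rw [hq₁, mul_zero]
  have hcop : IsCoprime p₁ q₁ := by
    have h1 := EuclideanDomain.gcd_eq_gcd_ab p q
    refine ⟨EuclideanDomain.gcdA p q, EuclideanDomain.gcdB p q, ?_⟩
    apply mul_left_cancel₀ hg0
    rw [← hg] at h1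
    linear_combination (-1 : M[X]) * h1 - EuclideanDomain.gcdA p q * hp₁ -
      EuclideanDomain.gcdB p q * hq₁
  set g' := EuclideanDomain.gcd n m with hg'
  have hg'0 : g' ≠ 0 := fun h0 => hm (EuclideanDomain.gcd_eq_zero_iff.1 h0).2
  obtain ⟨n₁, hn₁⟩ : g' ∣ n := EuclideanDomain.gcd_dvd_left n m
  obtain ⟨m₁, hm₁⟩ : g' ∣ m := EuclideanDomain.gcd_dvd_right n m
  have hcop' : IsCoprime n₁ m₁ := by
    have h1 := EuclideanDomain.gcd_eq_gcd_ab n m
    refine ⟨EuclideanDomain.gcdA n m, EuclideanDomain.gcdB n m, ?_⟩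
    apply mul_left_cancel₀ hg'0
    rw [← hg'] at h1
    linear_combination (-1 : M[X]) * h1 - EuclideanDomain.gcdA n m * hn₁ -
      EuclideanDomain.gcdB n m * hm₁
  obtain ⟨c, hc⟩ := geo_coprime d F p₁ q₁ n₁ m₁ hd hFd hF hq10 hcop hcop' (by
    apply mul_left_cancel₀ (mul_ne_zero (pow_ne_zero 2 hg'0) (pow_ne_zero d hg0))
    rw [hp₁, hq₁, hom_mul_left, hn₁, hm₁] at h'
    linear_combination h')
  refine ⟨c, ?_⟩
  rw [hp₁, hq₁, hc]
  ring

end Pool.Agent.Helper73.MTK
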